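import Pool.Agent.H22.CM.Stm
set_option autoImplicit false

namespace H38.CM

open Subgroup

namespace BIG_aux

/-- order bound from the action on a normal subgroup containing its centraliser -/
theorem bound {X : Type} [Group X] [Finite X] (n : ℕ) (T : Subgroup X) [T.Normal] (hn : Nat.card T ≤ n)
    (hC : centralizer (T : Set X) ≤ T) : Nat.card X ≤ n * n.factorial := by
  have hk : (MulAut.conjNormal (H := T) : X →* MulAut T).ker ≤ centralizer (T : Set X) := by
    intro g hg
    rw [MonoidHom.mem_ker] at hg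
    rw [mem_centralizer_iff]
    intro t ht
    have h1 : ((MulAut.conjNormal (H := T) g) ⟨t, ht⟩ : X) = t := by rw [hg]; rfl
    rw [MulAut.conjNormal_apply] at h1
    simp only at h1
    rw [mul_inv_eq_iff_eq_mul] at h1
    exact h1.symm
  have h1 : Nat.card (MulAut.conjNormal (H := T) : X →* MulAut T).ker ≤ n :=
    le_trans (card_le_of_le (le_trans hk hC)) hn
  have h2 : (MulAut.conjNormal (H := T) : X →* MulAut T).ker.index ≤ n.factorial := by
    rw [index_ker]
    have h3 : Nat.card (MulAut.conjNormal (H := T) : X →* MulAut T).range ≤ Nat.card (MulAut T) :=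
      Nat.card_le_card_of_injective _ Subtype.val_injective
    have h4 : Nat.card (MulAut T) ≤ Nat.card (Equiv.Perm T) :=
      Nat.card_le_card_of_injective (fun a : MulAut T => (MulEquiv.toEquiv a : Equiv.Perm T))
        MulEquiv.toEquiv_injective
    rw [Nat.card_perm] at h4
    exact le_trans h3 (le_trans h4 (Nat.factorial_le hn))
  rw [← card_mul_index (MulAut.conjNormal (H := T) : X →* MulAut T).ker]
  exact Nat.mul_le_mul h1 h2

/-- elements of `D` killed by `m` form the complement of the central coprime subgroup `Z` -/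
theorem odd_part {X : Type} [Group X] [Finite X] (Z D : Subgroup X) [Z.Normal] [hDn : D.Normal] (hZD : Z ≤ D)
    (hc : ∀ z ∈ Z, ∀ d ∈ D, z * d = d * z) (m : ℕ) (hcard : Nat.card D = Nat.card Z * m)
    (hco : (Nat.card Z).Coprime m) : ∃ S : Subgroup X, S.Normal ∧ Nat.card S = m := by
  have hZ0 : 0 < Nat.card Z := Nat.card_pos
  have hcZ : Nat.card (Z.subgroupOf D) = Nat.card Z :=
    Nat.card_congr (subgroupOfEquivOfLe hZD).toEquiv
  have hi : (Z.subgroupOf D).index = m := by
    have := card_mul_index (Z.subgroupOf D)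
    rw [hcZ, hcard] at this
    exact Nat.eq_of_mul_eq_mul_left hZ0 this
  obtain ⟨H, hH⟩ := exists_right_complement'_of_coprime (N := Z.subgroupOf D) (by rw [hcZ, hi]; exact hco)
  have hHc : Nat.card H = m := by
    have := hH.card_mul_card
    rw [hcZ, hcard] at this
    exact Nat.eq_of_mul_eq_mul_left hZ0 this
  have hSc : Nat.card (H.map D.subtype) = m := by
    rw [← hHc]
    exact (Nat.card_congr (H.equivMapOfInjective D.subtype D.subtype_injective).toEquiv).symm
  have hin : ∀ d ∈ D, d ^ m = 1 → d ∈ H.map D.subtype := by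
    intro d hd hdm
    obtain ⟨⟨z, s⟩, hzs, -⟩ := hH.existsUnique ⟨d, hd⟩
    simp only at hzs
    have hzs' : ((z : D) : X) * ((s : D) : X) = d := congrArg Subtype.val hzs
    have hz : ((z : D) : X) ∈ Z := mem_subgroupOf.mp z.2
    have hcomm : Commute ((z : D) : X) ((s : D) : X) := hc _ hz _ (s : D).2
    have hsm : ((s : D) : X) ^ m = 1 := by
      have h0 : orderOf (s : D) ∣ Nat.card H := Subgroup.orderOf_dvd_natCard _ s.2
      rw [hHc] at h0
      have h1 : (s : D) ^ m = 1 := orderOf_dvd_iff_pow_eq_one.mp h0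
      have h2 := congrArg Subtype.val h1
      rw [Subgroup.coe_pow] at h2
      exact h2
    have hzm : ((z : D) : X) ^ m = 1 := by
      rw [← hzs', hcomm.mul_pow, hsm, mul_one] at hdm
      exact hdm
    have hz1 : ((z : D) : X) = 1 := by
      have h1 : orderOf ((z : D) : X) ∣ m := orderOf_dvd_of_pow_eq_one hzm
      have h2 : orderOf ((z : D) : X) ∣ Nat.card Z := Subgroup.orderOf_dvd_natCard _ hz
      have h3 := Nat.dvd_gcd h2 h1
      rw [hco.gcd_eq_one, Nat.dvd_one, orderOf_eq_one_iff] at h3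
      exact h3
    rw [hz1, one_mul] at hzs'
    rw [← hzs']
    exact mem_map_of_mem D.subtype s.2
  refine ⟨H.map D.subtype, ⟨?_⟩, hSc⟩
  intro s hs g
  have hsD : s ∈ D := by
    obtain ⟨a, -, rfl⟩ := hs
    exact a.2
  apply hin
  · exact hDn.conj_mem s hsD g
  · have h0 : orderOf s ∣ Nat.card (H.map D.subtype) := Subgroup.orderOf_dvd_natCard _ hs
    rw [hSc] at h0
    have h1 : s ^ m = 1 := orderOf_dvd_iff_pow_eq_one.mp h0
    rw [conj_pow, h1]; group

/-- the centraliser of a maximal normal 2-subgroup -/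
theorem cent_le (hN : H22.CM.S_NPS) {X : Type} [Group X] [Finite X] [Group.IsSolvable X]
    (hodd : ∀ N : Subgroup X, N.Normal → Odd (Nat.card N) → N = ⊥)
    (T : Subgroup X) [T.Normal] (hTp : IsPGroup 2 T)
    (hmax : ∀ S : Subgroup X, S.Normal → IsPGroup 2 S → Nat.card S ≤ Nat.card T) :
    centralizer (T : Set X) ≤ T := by
  by_contra hC
  have hCn : (centralizer (T : Set X)).Normal := inferInstance
  have hZn : (centralizer (T : Set X) ⊓ T).Normal := inferInstance
  set C : Subgroup X := centralizer (T : Set X) with hCdef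
  set Z : Subgroup X := C ⊓ T with hZdef
  have hsurj := QuotientGroup.mk'_surjective Z
  have hC'n : (C.map (QuotientGroup.mk' Z)).Normal := hCn.map _ hsurj
  have hC'1 : C.map (QuotientGroup.mk' Z) ≠ ⊥ := by
    intro h
    rw [Subgroup.map_eq_bot_iff, QuotientGroup.ker_mk'] at h
    exact hC (le_trans h inf_le_right)
  obtain ⟨p, N', hp, hN'n, hN'p, hN'1, hN'C⟩ := hN (X ⧸ Z) (C.map (QuotientGroup.mk' Z)) inferInstance hC'1
  have hDn : (N'.comap (QuotientGroup.mk' Z)).Normal := hN'n.comap _
  set D : Subgroup X := N'.comap (QuotientGroup.mk' Z) with hDdef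
  have hZD : Z ≤ D := by
    intro z hz
    rw [hDdef, mem_comap]
    have : QuotientGroup.mk' Z z = 1 := (QuotientGroup.eq_one_iff _).mpr hz
    rw [this]; exact one_mem _
  have hDC : D ≤ C := by
    intro x hx
    rw [hDdef, mem_comap] at hx
    obtain ⟨c, hc, hcx⟩ := hN'C hx
    have h1 : c⁻¹ * x ∈ Z := QuotientGroup.eq.mp hcx
    have h2 : x = c * (c⁻¹ * x) := by group
    rw [h2]
    exact C.mul_mem hc h1.1
  have hcard : Nat.card D = Nat.card Z * Nat.card N' := by
    have h1 : D.index = N'.index := index_comap_of_surjective _ hsurj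
    have h2 := card_mul_index D
    have h3 := card_mul_index Z
    have h4 := card_mul_index N'
    have h5 : Nat.card (X ⧸ Z) = Z.index := rfl
    rw [h1] at h2
    rw [← h5, ← h4, ← h2, ← mul_assoc] at h3
    have h6 : 0 < N'.index := Nat.pos_of_ne_zero index_ne_zero_of_finite
    exact (Nat.eq_of_mul_eq_mul_right h6 h3).symm
  have hZ0 : 0 < Nat.card Z := Nat.card_pos
  have hN'2 : Nat.card N' ≠ 1 := fun h => hN'1 (card_eq_one.mp h)
  have hDT : ¬ D ≤ T := by
    intro h
    have h1 : D ≤ Z := le_inf hDC h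
    have h2 := card_le_of_le h1
    rw [hcard] at h2
    have h3 : 0 < Nat.card N' := Nat.card_pos
    have h4 : 2 ≤ Nat.card N' := by omega
    nlinarith
  have hZp : IsPGroup 2 Z := hTp.to_le inf_le_right
  obtain ⟨a, ha⟩ := (IsPGroup.iff_card).mp hZp
  have : Fact p.Prime := ⟨hp⟩
  obtain ⟨b, hb⟩ := (IsPGroup.iff_card).mp hN'p
  by_cases hp2 : p = 2
  · subst hp2
    have hDp : IsPGroup 2 D := by
      apply IsPGroup.of_card (n := a + b)
      rw [hcard, ha, hb, pow_add]
    have hS := hmax (T ⊔ D) inferInstance (hTp.to_sup_of_normal_right hDp)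
    have h1 : T = T ⊔ D := eq_of_le_of_card_ge le_sup_left hS
    apply hDT
    rw [h1]
    exact le_sup_right
  · have hco : (Nat.card Z).Coprime (Nat.card N') := by
      rw [ha, hb]
      exact Nat.Coprime.pow _ _ ((Nat.coprime_primes Nat.prime_two hp).mpr (Ne.symm hp2))
    obtain ⟨S, hSn, hSc⟩ := odd_part Z D hZD (by
      intro z hz d hd
      have h1 := hDC hd
      rw [hCdef, mem_centralizer_iff] at h1
      exact h1 z hz.2) (Nat.card N') hcard hco
    have h1 := hodd S hSn (by
      rw [hSc, hb]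
      exact (hp.odd_of_ne_two hp2).pow)
    rw [h1] at hSc
    apply hN'2
    rw [← hSc]
    simp

end BIG_aux

theorem t_BIG (hN : H22.CM.S_NPS) : H22.CM.S_BIG := by
  intro X _ _ _ n hT hodd
  obtain ⟨T, ⟨hTn, hTp⟩, hmax⟩ := Set.exists_max_image {T : Subgroup X | T.Normal ∧ IsPGroup 2 T}
    (fun T => Nat.card T) (Set.toFinite _) ⟨⊥, inferInstance, IsPGroup.of_bot⟩
  have hC := BIG_aux.cent_le hN hodd T hTp (fun S h1 h2 => hmax S ⟨h1, h2⟩)
  exact BIG_aux.bound n T (hT T hTp) hC

end H38.CM
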