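import Pool.Agent.H22.CM.Stm
set_option autoImplicit false

namespace H38.CM

open Subgroup

namespace STR_aux

/-- a subgroup containing all squares is normal -/
theorem normal_of_sq {P : Type} [Group P] (D : Subgroup P) (h : ∀ x : P, x * x ∈ D) : D.Normal := by
  constructor
  intro d hd g
  have e : g * d * g⁻¹ = (g * g) * ((g⁻¹ * d) * (g⁻¹ * d)) * d⁻¹ := by group
  rw [e]
  exact D.mul_mem (D.mul_mem (h g) (h _)) (D.inv_mem hd)

theorem anti {Q : Type} [Group Q] (z : Q) (hc : ∀ q, z * q = q * z) (x y : Q) (hx : x * x = z)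
    (hy : y * y = z) (hxy : (x * y) * (x * y) = z) : x * y = z * (y * x) := by
  have h1 : x * ((x * y) * (x * y)) * y = x * z * y := by rw [hxy]
  have h2 : x * ((x * y) * (x * y)) * y = (x * x) * (y * x) * (y * y) := by group
  rw [h2, hx, hy, ← hc x] at h1
  have h3 : z * (y * x * z) = z * (x * y) := by
    rw [← mul_assoc, ← mul_assoc] ; rw [← mul_assoc] at h1; simpa [mul_assoc] using h1
  have h4 := mul_left_cancel h3
  rw [← h4, hc]

theorem key {Q : Type} [Group Q] (z : Q) (hz : z * z = 1) (hz1 : z ≠ 1) (hc : ∀ q, z * q = q * z)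
    (x y w : Q) (hx : x * x = z) (hy : y * y = z) (hw : w * w = z) (hxy : (x * y) * (x * y) = z)
    (hxw : (x * w) * (x * w) = z) (hyw : (y * w) * (y * w) = z)
    (hxyw : (x * (y * w)) * (x * (y * w)) = z) : False := by
  have a1 := anti z hc x y hx hy hxy
  have a2 := anti z hc x w hx hw hxw
  have a3 := anti z hc x (y * w) hx hyw hxyw
  have a4 : x * (y * w) = y * w * x := by
    calc x * (y * w) = (x * y) * w := by group
      _ = z * y * (x * w) := by rw [a1]; group
      _ = z * y * (z * (w * x)) := by rw [a2]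
      _ = z * (y * z) * (w * x) := by group
      _ = z * (z * y) * (w * x) := by rw [hc y]
      _ = (z * z) * (y * w * x) := by group
      _ = y * w * x := by rw [hz, one_mul]
  rw [a4] at a3
  apply hz1
  have : 1 * (y * w * x) = z * (y * w * x) := by rw [one_mul]; exact a3
  exact (mul_right_cancel this).symm

theorem ord_sq {P : Type} [Group P] [Finite P] (x : P) (j : ℕ) (h : orderOf x = 2 ^ (j + 1)) :
    orderOf (x * x) = 2 ^ j := by
  rw [← pow_two, orderOf_pow, h]
  have : (2 ^ (j + 1)).gcd 2 = 2 := by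
    rw [pow_succ]; simp
  rw [this, pow_succ]; simp

theorem ord_pow {P : Type} [Group P] [Finite P] (hP : IsPGroup 2 P) (x : P) :
    ∃ j, orderOf x = 2 ^ j := by
  obtain ⟨k, hk⟩ := hP x
  obtain ⟨j, -, hj⟩ := (Nat.dvd_prime_pow Nat.prime_two).mp (orderOf_dvd_of_pow_eq_one hk)
  exact ⟨j, hj⟩

/-- odd powers have the same order -/
theorem ord_odd {P : Type} [Group P] [Finite P] (y : P) (a k : ℕ) (hy : orderOf y = 2 ^ a) (hk : Odd k) :
    orderOf (y ^ k) = 2 ^ a := by
  rw [← hy]
  apply Nat.Coprime.orderOf_pow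
  rw [hy]
  exact Nat.Coprime.pow_left _ (Nat.coprime_two_left.mpr hk)

theorem mem_pow {P : Type} [Group P] [Finite P] (x y : P) (h : x ∈ zpowers y) : ∃ k : ℕ, y ^ k = x := by
  rw [← mem_powers_iff_mem_zpowers] at h
  exact h

theorem even_mem {P : Type} [Group P] (y : P) (k : ℕ) (hk : Even k) : y ^ k ∈ zpowers (y * y) := by
  obtain ⟨m, rfl⟩ := hk
  have : y ^ (m + m) = (y * y) ^ m := by rw [← pow_two, ← pow_mul]; congr 1; ring
  rw [this]
  exact Subgroup.npow_mem_zpowers _ _

theorem lemA {P : Type} [Group P] [Finite P] (hP : IsPGroup 2 P) (x y : P) (a : ℕ)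
    (hy : orderOf y = 2 ^ (a + 1)) (hx : x * x ∈ zpowers y) (hx2 : orderOf x ≠ 2 ^ (a + 2)) :
    x * x ∈ zpowers (y * y) := by
  obtain ⟨k, hk⟩ := mem_pow _ _ hx
  rcases Nat.even_or_odd k with he | ho
  · rw [← hk]; exact even_mem y k he
  · exfalso
    have h1 : orderOf (x * x) = 2 ^ (a + 1) := by rw [← hk]; exact ord_odd y _ k hy ho
    obtain ⟨j, hj⟩ := ord_pow hP x
    rcases j with _ | j
    · rw [pow_zero, orderOf_eq_one_iff] at hj
      subst hj
      rw [one_mul, orderOf_one] at h1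
      have : 1 < 2 ^ (a + 1) := Nat.one_lt_two_pow (by omega)
      omega
    · have h2 := ord_sq x j hj
      rw [h1] at h2
      have h3 := Nat.pow_right_injective (le_refl 2) h2
      apply hx2
      rw [hj, ← h3]

theorem dich {P : Type} [Group P] [Finite P] (d x : P) (h : x ∈ zpowers d) :
    x ∈ zpowers (d * d) ∨ x * d⁻¹ ∈ zpowers (d * d) := by
  obtain ⟨k, hk⟩ := mem_pow _ _ h
  rcases Nat.even_or_odd k with he | ho
  · left; rw [← hk]; exact even_mem d k he
  · right
    obtain ⟨m, rfl⟩ := ho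
    rw [← hk, pow_succ, mul_assoc, mul_inv_cancel, mul_one]
    exact even_mem d _ ⟨m, by ring⟩

end STR_aux

open STR_aux in
theorem t_STR : H22.CM.S_STR := by
  intro P _ _ hP h16 hnc hord
  classical
  by_contra hneg
  have H : ∀ N : Subgroup P, (∀ x, x * x ∈ N) → N.index = 4 → IsCyclic N := by
    intro N h1 h2
    by_contra h3
    apply hneg
    refine ⟨N, normal_of_sq N h1, h3, ?_, h1⟩
    rw [← N.index_mul_card, h2, mul_comm]
  obtain ⟨n, hn⟩ := (IsPGroup.iff_card).mp hP
  obtain ⟨n', rfl⟩ : ∃ k, n = k + 4 := by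
    have : 4 ≤ n := by
      by_contra hlt
      push Not at hlt
      have : 2 ^ n ≤ 2 ^ 3 := Nat.pow_le_pow_right (by norm_num) (by omega)
      omega
    exact ⟨n - 4, by omega⟩
  -- first subgroup of index two
  obtain ⟨M₁, hM₁, -⟩ := Sylow.exists_subgroup_card_pow_prime_le 2 (n := 0) (m := n' + 3)
    (by rw [hn]; exact pow_dvd_pow 2 (by omega)) (⊥ : Subgroup P) (by simp) (by omega)
  have ind : ∀ M : Subgroup P, Nat.card M = 2 ^ (n' + 3) → M.index = 2 := by
    intro M hM
    have := M.index_mul_card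
    rw [hM, hn] at this
    have h2 : (2 : ℕ) ^ (n' + 4) = 2 * 2 ^ (n' + 3) := by ring
    rw [h2] at this
    exact Nat.eq_of_mul_eq_mul_right (by positivity) this
  have hI₁ := ind M₁ hM₁
  obtain ⟨x, hx⟩ : ∃ x, x ∉ M₁ := by
    by_contra hcon
    push Not at hcon
    have : M₁ = ⊤ := by ext; simp [hcon]
    rw [this, index_top] at hI₁
    omega
  obtain ⟨j, hj⟩ := ord_pow hP x
  have hj3 : j ≤ n' + 3 := by
    have h1 : orderOf x ∣ 2 ^ (n' + 4) := by rw [← hn]; exact orderOf_dvd_natCard x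
    rw [hj] at h1
    have h2 := (Nat.pow_dvd_pow_iff_le_right (by norm_num : 1 < 2)).mp h1
    by_contra h3
    have : j = n' + 4 := by omega
    apply hnc
    rw [isCyclic_iff_exists_orderOf_eq_natCard]
    exact ⟨x, by rw [hj, hn, this]⟩
  obtain ⟨M₂, hM₂, hxM₂⟩ := Sylow.exists_subgroup_card_pow_prime_le 2 (n := j) (m := n' + 3)
    (by rw [hn]; exact pow_dvd_pow 2 (by omega)) (zpowers x) (by rw [Nat.card_zpowers, hj]) hj3
  have hI₂ := ind M₂ hM₂
  have hx2 : x ∈ M₂ := hxM₂ (mem_zpowers x)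
  have hNsq : ∀ g : P, g * g ∈ M₁ ⊓ M₂ := fun g =>
    ⟨mul_self_mem_of_index_two hI₁ g, mul_self_mem_of_index_two hI₂ g⟩
  have hNi : (M₁ ⊓ M₂).index = 4 := by
    have h1 : (M₁ ⊓ M₂).index ≤ 4 := by
      have := index_inf_le (H := M₁) (K := M₂)
      rw [hI₁, hI₂] at this
      exact this
    have h2 := relIndex_mul_index (H := M₁ ⊓ M₂) (K := M₂) inf_le_right
    rw [hI₂] at h2
    have h3 : (M₁ ⊓ M₂).relIndex M₂ ≠ 1 := by
      intro h
      rw [relIndex_eq_one] at h
      exact hx (h hx2).1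
    have h4 : (M₁ ⊓ M₂).relIndex M₂ ≠ 0 := by
      intro h
      rw [h, zero_mul] at h2
      exact (index_ne_zero_of_finite (H := M₁ ⊓ M₂)) h2.symm
    omega
  have hNc := H _ hNsq hNi
  obtain ⟨y, hy⟩ : ∃ y, M₁ ⊓ M₂ = zpowers y := by
    obtain ⟨⟨y, hyN⟩, hy⟩ := hNc.exists_generator
    refine ⟨y, le_antisymm ?_ ?_⟩
    · intro g hg
      obtain ⟨k, hk⟩ := mem_zpowers_iff.mp (hy ⟨g, hg⟩)
      exact mem_zpowers_iff.mpr ⟨k, by simpa using congrArg Subtype.val hk⟩
    · rw [zpowers_le]; exact hyN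
  have hNcard : Nat.card (M₁ ⊓ M₂ : Subgroup P) = 2 ^ (n' + 2) := by
    have := (M₁ ⊓ M₂).index_mul_card
    rw [hNi, hn] at this
    have h2 : (2 : ℕ) ^ (n' + 4) = 4 * 2 ^ (n' + 2) := by ring
    rw [h2] at this
    exact Nat.eq_of_mul_eq_mul_left (by norm_num) this
  have hyo : orderOf y = 2 ^ (n' + 1 + 1) := by
    rw [← Nat.card_zpowers, ← hy, hNcard]
  have hDsq : ∀ g : P, g * g ∈ zpowers (y * y) := by
    intro g
    apply lemA hP g y (n' + 1) hyo (by rw [← hy]; exact hNsq g)
    intro h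
    apply hord g
    rw [h, hn]; ring
  obtain ⟨d, hd⟩ : ∃ d, d = y * y := ⟨_, rfl⟩
  rw [← hd] at hDsq
  have hdo : orderOf d = 2 ^ (n' + 1) := by rw [hd]; exact ord_sq y _ hyo
  have hDn : (zpowers d).Normal := normal_of_sq _ hDsq
  have hDi : (zpowers d).index = 8 := by
    have := (zpowers d).index_mul_card
    rw [Nat.card_zpowers, hdo, hn] at this
    have h2 : (2 : ℕ) ^ (n' + 4) = 8 * 2 ^ (n' + 1) := by ring
    rw [h2] at this
    exact Nat.eq_of_mul_eq_mul_right (by positivity) this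
  have hQ8 : Nat.card (P ⧸ zpowers d) = 8 := hDi
  -- all elements outside `D` have order `2 ^ (n' + 2)`
  have hout : ∀ g : P, g ∉ zpowers d → orderOf g = 2 ^ (n' + 1 + 1) := by
    intro g hg
    have hu : orderOf (QuotientGroup.mk' (zpowers d) g) = 2 := by
      apply orderOf_eq_prime
      · rw [← map_pow, pow_two]
        exact (QuotientGroup.eq_one_iff _).mpr (hDsq g)
      · intro h
        exact hg ((QuotientGroup.eq_one_iff _).mp h)
    have hKi : ((zpowers (QuotientGroup.mk' (zpowers d) g)).comap (QuotientGroup.mk' (zpowers d))).index = 4 := by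
      rw [index_comap_of_surjective _ (QuotientGroup.mk'_surjective _)]
      have := (zpowers (QuotientGroup.mk' (zpowers d) g)).index_mul_card
      rw [Nat.card_zpowers, hu, hQ8] at this
      omega
    have hKc := H _ (by
      intro a
      rw [mem_comap]
      have : QuotientGroup.mk' (zpowers d) (a * a) = 1 := (QuotientGroup.eq_one_iff _).mpr (hDsq a)
      rw [this]; exact one_mem _) hKi
    obtain ⟨⟨c, hcK⟩, hc⟩ := hKc.exists_generator
    have hco : orderOf c = 2 ^ (n' + 2) := by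
      have h1 : orderOf (⟨c, hcK⟩ : ((zpowers (QuotientGroup.mk' (zpowers d) g)).comap
          (QuotientGroup.mk' (zpowers d)))) = Nat.card _ := orderOf_eq_card_of_forall_mem_zpowers hc
      rw [Subgroup.orderOf_mk] at h1
      rw [h1]
      have := ((zpowers (QuotientGroup.mk' (zpowers d) g)).comap (QuotientGroup.mk' (zpowers d))).index_mul_card
      rw [hKi, hn] at this
      have h2 : (2 : ℕ) ^ (n' + 4) = 4 * 2 ^ (n' + 2) := by ring
      rw [h2] at this
      exact Nat.eq_of_mul_eq_mul_left (by norm_num) this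
    have hgK : g ∈ (zpowers (QuotientGroup.mk' (zpowers d) g)).comap (QuotientGroup.mk' (zpowers d)) := by
      rw [mem_comap]; exact mem_zpowers _
    have hgc : g ∈ zpowers c := by
      obtain ⟨k, hk⟩ := mem_zpowers_iff.mp (hc ⟨g, hgK⟩)
      have hk' := congrArg Subtype.val hk
      rw [Subgroup.coe_zpow] at hk'
      exact mem_zpowers_iff.mpr ⟨k, hk'⟩
    obtain ⟨k, hk⟩ := mem_pow _ _ hgc
    rcases Nat.even_or_odd k with he | ho
    · exfalso
      apply hg
      rw [← hk]
      have h1 : zpowers (c * c) ≤ zpowers d := by rw [zpowers_le]; exact hDsq c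
      exact h1 (even_mem c k he)
    · rw [← hk]; exact ord_odd c _ k hco ho
  -- the subgroup `E`
  have hEcard : orderOf (d * d) = 2 ^ n' := ord_sq d n' hdo
  have hEord : ∀ e ∈ zpowers (d * d), orderOf e ≠ 2 ^ (n' + 1) := by
    intro e he h
    have h1 : orderOf e ∣ Nat.card (zpowers (d * d)) := by
      exact Subgroup.orderOf_dvd_natCard _ he
    rw [Nat.card_zpowers, hEcard, h] at h1
    have := (Nat.pow_dvd_pow_iff_le_right (by norm_num : 1 < 2)).mp h1
    omega
  have hdE : d ∉ zpowers (d * d) := fun h => hEord d h hdo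
  have hsqE : ∀ g : P, g ∉ zpowers d → g * g ∉ zpowers (d * d) := fun g hg h =>
    hEord _ h (ord_sq g _ (hout g hg))
  have hEn : (zpowers (d * d)).Normal := by
    constructor
    intro e he g
    obtain ⟨k, hk⟩ := mem_pow _ _ he
    have h1 : g * d ^ k * g⁻¹ ∈ zpowers d := hDn.conj_mem _ (Subgroup.npow_mem_zpowers d k) g
    obtain ⟨m, hm⟩ := mem_pow _ _ h1
    have h2 : g * e * g⁻¹ = d ^ (m + m) := by
      rw [pow_add, hm, ← hk, ← pow_two, ← pow_mul, mul_comm 2 k, mul_two, pow_add]; group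
    rw [h2]
    exact even_mem d _ ⟨m, rfl⟩
  -- central element
  have hzz : (QuotientGroup.mk' (zpowers (d * d)) d) * (QuotientGroup.mk' (zpowers (d * d)) d) = 1 := by
    rw [← map_mul]
    exact (QuotientGroup.eq_one_iff _).mpr (mem_zpowers _)
  have hz1 : (QuotientGroup.mk' (zpowers (d * d)) d) ≠ 1 := by
    intro h
    exact hdE ((QuotientGroup.eq_one_iff _).mp h)
  have hzc : ∀ q : P ⧸ zpowers (d * d), (QuotientGroup.mk' (zpowers (d * d)) d) * q =
      q * (QuotientGroup.mk' (zpowers (d * d)) d) := by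
    intro q
    obtain ⟨g, rfl⟩ := QuotientGroup.mk'_surjective _ q
    have h1 : g * d * g⁻¹ ∈ zpowers d := hDn.conj_mem _ (mem_zpowers d) g
    rcases dich _ _ h1 with h2 | h2
    · exfalso
      apply hdE
      have := hEn.conj_mem _ h2 g⁻¹
      have e : g⁻¹ * (g * d * g⁻¹) * g⁻¹⁻¹ = d := by group
      rwa [e] at this
    · have h3 : QuotientGroup.mk' (zpowers (d * d)) (g * d * g⁻¹ * d⁻¹) = 1 := (QuotientGroup.eq_one_iff _).mpr h2
      rw [map_mul, map_mul, map_mul, map_inv, map_inv] at h3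
      rw [mul_inv_eq_one] at h3
      rw [mul_inv_eq_iff_eq_mul] at h3
      exact h3.symm
  have hsz : ∀ g : P, g ∉ zpowers d → (QuotientGroup.mk' (zpowers (d * d)) g) *
      (QuotientGroup.mk' (zpowers (d * d)) g) = QuotientGroup.mk' (zpowers (d * d)) d := by
    intro g hg
    rcases dich _ _ (hDsq g) with h2 | h2
    · exact absurd h2 (hsqE g hg)
    · have h3 : QuotientGroup.mk' (zpowers (d * d)) (g * g * d⁻¹) = 1 := (QuotientGroup.eq_one_iff _).mpr h2
      rw [map_mul, map_mul, map_inv, mul_inv_eq_one] at h3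
      exact h3
  -- three independent elements
  have hQsq : ∀ q : P ⧸ zpowers d, q * q = 1 := by
    intro q
    obtain ⟨g, rfl⟩ := QuotientGroup.mk'_surjective _ q
    rw [← map_mul]
    exact (QuotientGroup.eq_one_iff _).mpr (hDsq g)
  have hQinv : ∀ q : P ⧸ zpowers d, q⁻¹ = q := fun q => inv_eq_of_mul_eq_one_left (hQsq q)
  have hpick : ∀ s : Finset (P ⧸ zpowers d), s.card < 8 → ∃ q, q ∉ s := by
    intro s hs
    by_contra hcon
    push Not at hcon
    have : Fintype (P ⧸ zpowers d) := Fintype.ofFinite _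
    have h1 : s = Finset.univ := by ext q; simp [hcon q]
    rw [h1, Finset.card_univ, ← Nat.card_eq_fintype_card, hQ8] at hs
    omega
  obtain ⟨u, hu⟩ := hpick {1} (by simp)
  obtain ⟨v, hv⟩ := hpick {1, u} (lt_of_le_of_lt Finset.card_le_two (by norm_num))
  obtain ⟨t, ht⟩ := hpick {1, u, v, u * v} (lt_of_le_of_lt Finset.card_le_four (by norm_num))
  simp only [Finset.mem_singleton, Finset.mem_insert, not_or] at hu hv ht
  obtain ⟨x, rfl⟩ := QuotientGroup.mk'_surjective _ u
  obtain ⟨y', rfl⟩ := QuotientGroup.mk'_surjective _ v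
  obtain ⟨w, rfl⟩ := QuotientGroup.mk'_surjective _ t
  have hmk : ∀ g : P, QuotientGroup.mk' (zpowers d) g ≠ 1 → g ∉ zpowers d := fun g hg h =>
    hg ((QuotientGroup.eq_one_iff _).mpr h)
  have heq : ∀ a b : P, QuotientGroup.mk' (zpowers d) b ≠ QuotientGroup.mk' (zpowers d) a → a * b ∉ zpowers d := by
    intro a b hab
    apply hmk
    rw [map_mul]
    intro h
    apply hab
    rw [← hQinv (QuotientGroup.mk' (zpowers d) a)]
    exact eq_inv_of_mul_eq_one_right h
  have q1 := hsz x (hmk x hu)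
  have q2 := hsz y' (hmk y' hv.1)
  have q3 := hsz w (hmk w ht.1)
  have q4 := hsz (x * y') (heq x y' hv.2)
  have q5 := hsz (x * w) (heq x w ht.2.1)
  have q6 := hsz (y' * w) (heq y' w ht.2.2.1)
  have q7 := hsz (x * (y' * w)) (by
    rw [← mul_assoc]
    apply heq
    rw [map_mul]
    exact ht.2.2.2)
  simp only [map_mul] at q4 q5 q6 q7
  exact key _ hzz hz1 hzc _ _ _ q1 q2 q3 q4 q5 q6 q7

end H38.CM
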